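import Mathlib

namespace Pool.Agent.Results.MP_9fc12a_nt.RootBound

open Finset

/-- `S(n,t) = ∑ ε_j t^j` for `n = ∑ ε_j 2^j` in binary, as an integer polynomial. -/
noncomputable def S (n : ℕ) : Polynomial ℤ := Nat.ofDigits (Polynomial.X : Polynomial ℤ) (Nat.digits 2 n)

/-- The Hankel determinant `det [S(i+j,t)]_{0 ≤ i,j < n}`, an integer polynomial. -/
noncomputable def H (n : ℕ) : Polynomial ℤ :=
  (Matrix.of fun i j : Fin n => S ((i : ℕ) + (j : ℕ))).det

/-! ### Values -/

/-- value of `S(n, ·)` at `t` -/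
noncomputable def s (t : ℂ) (n : ℕ) : ℂ := Polynomial.aeval t (S n)

lemma s_zero (t : ℂ) : s t 0 = 0 := by
  unfold s S
  rw [Nat.digits_zero, Nat.ofDigits, map_zero]

lemma s_even (t : ℂ) (n : ℕ) : s t (2 * n) = t * s t n := by
  rcases Nat.eq_zero_or_pos n with rfl | hn
  · simp [s_zero]
  · unfold s S
    rw [Nat.digits_def' (by norm_num) (by omega : 0 < 2 * n), Nat.ofDigits,
      show 2 * n % 2 = 0 by omega, show 2 * n / 2 = n by omega]
    simp

lemma s_odd (t : ℂ) (n : ℕ) : s t (2 * n + 1) = t * s t n + 1 := by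
  unfold s S
  rw [Nat.digits_def' (by norm_num) (by omega : 0 < 2 * n + 1), Nat.ofDigits,
    show (2 * n + 1) % 2 = 1 by omega, show (2 * n + 1) / 2 = n by omega]
  simp
  ring

/-- first differences -/
noncomputable def d1 (t : ℂ) (n : ℕ) : ℂ := s t (n + 1) - s t n

/-- second differences -/
noncomputable def d2 (t : ℂ) (n : ℕ) : ℂ := d1 t (n + 1) - d1 t n

lemma d1_even (t : ℂ) (n : ℕ) : d1 t (2 * n) = 1 := by
  unfold d1
  rw [s_even, s_odd]
  ring

lemma d1_odd (t : ℂ) (n : ℕ) : d1 t (2 * n + 1) = t * d1 t n - 1 := by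
  unfold d1
  rw [show 2 * n + 1 + 1 = 2 * (n + 1) by ring, s_even, s_odd]
  ring

lemma d2_even (t : ℂ) (n : ℕ) : d2 t (2 * n) = t * d1 t n - 2 := by
  unfold d2
  rw [d1_odd, d1_even]
  ring

lemma d2_odd (t : ℂ) (n : ℕ) : d2 t (2 * n + 1) = 2 - t * d1 t n := by
  unfold d2
  rw [show 2 * n + 1 + 1 = 2 * (n + 1) by ring, d1_even, d1_odd]
  ring

/-! ### Splitting sums by parity -/

lemma sum_split (N : ℕ) (f : ℕ → ℂ) : ∑ j ∈ range N, f j =
    ∑ j ∈ range ((N + 1) / 2), f (2 * j) + ∑ j ∈ range (N / 2), f (2 * j + 1) := by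
  induction N with
  | zero => simp
  | succ N ih =>
    rw [sum_range_succ, ih]
    rcases Nat.even_or_odd' N with ⟨k, rfl | rfl⟩
    · rw [show (2 * k + 1) / 2 = k by omega, show 2 * k / 2 = k by omega,
        show (2 * k + 1 + 1) / 2 = k + 1 by omega, sum_range_succ (fun j => f (2 * j))]
      ring
    · rw [show (2 * k + 1 + 1) / 2 = k + 1 by omega, show (2 * k + 1) / 2 = k by omega,
        show (2 * k + 1 + 1 + 1) / 2 = k + 1 by omega, sum_range_succ (fun j => f (2 * j + 1))]
      ring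

lemma abel (b : ℕ) (f p : ℕ → ℂ) : ∑ j ∈ range (b + 1), f j * p j =
    f b * (∑ l ∈ range (b + 1), p l) -
      ∑ j ∈ range b, (f (j + 1) - f j) * (∑ l ∈ range (j + 1), p l) := by
  induction b with
  | zero => simp
  | succ b ih =>
    rw [sum_range_succ (fun j => f j * p j) (b + 1), ih,
      sum_range_succ (fun j => (f (j + 1) - f j) * (∑ l ∈ range (j + 1), p l)) b,
      sum_range_succ p (b + 1)]
    ring

/-- the quantity `1ᵀ Δ⁻¹ 1` -/
noncomputable def y (t : ℂ) (N : ℕ) : ℂ := (2 / t) ^ (padicValNat 2 N)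

lemma y_odd (t : ℂ) (b : ℕ) : y t (2 * b + 1) = 1 := by
  unfold y
  rw [padicValNat.eq_zero_of_not_dvd (by omega), pow_zero]

lemma y_even (t : ℂ) {b : ℕ} (hb : 1 ≤ b) : y t (2 * b) = 2 / t * y t b := by
  unfold y
  rw [padicValNat.mul (by norm_num) (by omega)]
  simp [pow_add]

section

variable {t : ℂ} (ht : 2 < ‖t‖)

include ht

lemma t_ne : t ≠ 0 := by
  rintro rfl
  simp at ht
  linarith

lemma norm_y (N : ℕ) : ‖y t N‖ ≤ 1 := by
  unfold y
  rw [norm_pow]
  apply pow_le_one₀ (norm_nonneg _)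
  rw [norm_div, Complex.norm_ofNat, div_le_one (by linarith)]
  exact ht.le

lemma ty_ne (N : ℕ) : t - 2 * y t N ≠ 0 := by
  intro h
  have h1 : t = 2 * y t N := by linear_combination h
  have h2 := norm_y ht N
  have h3 : ‖t‖ ≤ 2 := by
    rw [h1, norm_mul, Complex.norm_ofNat]
    linarith
  linarith

/-- Claim for the matrix `[δ(i+j)]`. -/
def DD (t : ℂ) (N : ℕ) : Prop := ∀ (r : ℕ → ℂ) (μ : ℂ),
  (∀ i < N, ∑ j ∈ range N, d1 t (i + j) * r j = μ) →
    ∑ j ∈ range N, r j = μ * y t N ∧ (μ = 0 → ∀ j < N, r j = 0)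

/-- Claim for the matrix `[δ₂(i+j)]`. -/
def FF (t : ℂ) (N : ℕ) : Prop := ∀ (r : ℕ → ℂ),
  (∀ i < N, ∑ j ∈ range N, d2 t (i + j) * r j = 0) → ∀ j < N, r j = 0

lemma D_even {b : ℕ} (hb : 1 ≤ b) (hD : DD t b) : DD t (2 * b) := by
  intro r μ hr
  have ht0 := t_ne ht
  set p : ℕ → ℂ := fun j => r (2 * j) with hp
  set q : ℕ → ℂ := fun j => r (2 * j + 1) with hq
  set π := ∑ j ∈ range b, p j with hπ
  set ρ := ∑ j ∈ range b, q j with hρ
  have e1 : ∀ i < b, t * ∑ j ∈ range b, d1 t (i + j) * q j = μ - π + ρ := by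
    intro i hi
    have h := hr (2 * i) (by omega)
    rw [sum_split, show (2 * b + 1) / 2 = b by omega, show 2 * b / 2 = b by omega] at h
    have h1 : ∑ j ∈ range b, d1 t (2 * i + 2 * j) * r (2 * j) = π :=
      sum_congr rfl fun j _ => by rw [← mul_add, d1_even, one_mul]
    have h2 : ∑ j ∈ range b, d1 t (2 * i + (2 * j + 1)) * r (2 * j + 1) =
        t * ∑ j ∈ range b, d1 t (i + j) * q j - ρ := by
      rw [mul_sum, hρ, ← sum_sub_distrib]
      apply sum_congr rfl
      intro j _
      rw [show 2 * i + (2 * j + 1) = 2 * (i + j) + 1 by ring, d1_odd]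
      ring
    rw [h1, h2] at h
    linear_combination h
  have e2 : ∀ i < b, t * ∑ j ∈ range b, d1 t (i + j) * p j = μ + π - ρ := by
    intro i hi
    have h := hr (2 * i + 1) (by omega)
    rw [sum_split, show (2 * b + 1) / 2 = b by omega, show 2 * b / 2 = b by omega] at h
    have h1 : ∑ j ∈ range b, d1 t (2 * i + 1 + 2 * j) * r (2 * j) =
        t * ∑ j ∈ range b, d1 t (i + j) * p j - π := by
      rw [mul_sum, hπ, ← sum_sub_distrib]
      apply sum_congr rfl
      intro j _
      rw [show 2 * i + 1 + 2 * j = 2 * (i + j) + 1 by ring, d1_odd]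
      ring
    have h2 : ∑ j ∈ range b, d1 t (2 * i + 1 + (2 * j + 1)) * r (2 * j + 1) = ρ :=
      sum_congr rfl fun j _ => by
        rw [show 2 * i + 1 + (2 * j + 1) = 2 * (i + j + 1) by ring, d1_even, one_mul]
    rw [h1, h2] at h
    linear_combination h
  obtain ⟨c1, c2⟩ := hD q ((μ - π + ρ) / t) (fun i hi => by
    rw [eq_div_iff ht0, mul_comm]; exact e1 i hi)
  obtain ⟨c3, c4⟩ := hD p ((μ + π - ρ) / t) (fun i hi => by
    rw [eq_div_iff ht0, mul_comm]; exact e2 i hi)
  rw [← hρ] at c1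
  rw [← hπ] at c3
  have c1' : ρ * t = (μ - π + ρ) * y t b := by
    conv_lhs => rw [c1]
    field_simp
  have c3' : π * t = (μ + π - ρ) * y t b := by
    conv_lhs => rw [c3]
    field_simp
  have hpr : π = ρ := by
    have h1 : (π - ρ) * (t - 2 * y t b) = 0 := by linear_combination c3' - c1'
    rcases mul_eq_zero.1 h1 with h2 | h2
    · linear_combination h2
    · exact absurd h2 (ty_ne ht b)
  have hsum : ∑ j ∈ range (2 * b), r j = π + ρ := by
    rw [sum_split, show (2 * b + 1) / 2 = b by omega, show 2 * b / 2 = b by omega]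
  refine ⟨?_, ?_⟩
  · rw [hsum, y_even t hb]
    field_simp
    linear_combination c1' + c3'
  · intro hμ
    rw [hμ, hpr] at c1'
    have hρ0 : ρ = 0 := by
      have : ρ * t = 0 := by linear_combination c1'
      rcases mul_eq_zero.1 this with h2 | h2
      · exact h2
      · exact absurd h2 ht0
    have d1' := c2 (by rw [hμ, hpr, hρ0]; simp)
    have d2' := c4 (by rw [hμ, hpr, hρ0]; simp)
    intro j hj
    rcases Nat.even_or_odd' j with ⟨k, rfl | rfl⟩
    · exact d2' k (by omega)
    · exact d1' k (by omega)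

lemma D_odd {b : ℕ} (hF : FF t b) : DD t (2 * b + 1) := by
  intro r μ hr
  have ht0 := t_ne ht
  set p : ℕ → ℂ := fun j => r (2 * j) with hp
  set q : ℕ → ℂ := fun j => r (2 * j + 1) with hq
  have hdiv1 : (2 * b + 1 + 1) / 2 = b + 1 := by omega
  have hdiv2 : (2 * b + 1) / 2 = b := by omega
  set π := ∑ j ∈ range (b + 1), p j with hπ
  set ρ := ∑ j ∈ range b, q j with hρ
  have e1 : ∀ i < b + 1, t * ∑ j ∈ range b, d1 t (i + j) * q j = μ - π + ρ := by
    intro i hi
    have h := hr (2 * i) (by omega)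
    rw [sum_split, hdiv1, hdiv2] at h
    have h1 : ∑ j ∈ range (b + 1), d1 t (2 * i + 2 * j) * r (2 * j) = π :=
      sum_congr rfl fun j _ => by rw [← mul_add, d1_even, one_mul]
    have h2 : ∑ j ∈ range b, d1 t (2 * i + (2 * j + 1)) * r (2 * j + 1) =
        t * ∑ j ∈ range b, d1 t (i + j) * q j - ρ := by
      rw [mul_sum, hρ, ← sum_sub_distrib]
      apply sum_congr rfl
      intro j _
      rw [show 2 * i + (2 * j + 1) = 2 * (i + j) + 1 by ring, d1_odd]
      ring
    rw [h1, h2] at h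
    linear_combination h
  have hq0 : ∀ j < b, q j = 0 := by
    apply hF
    intro i hi
    have h1 := e1 i (by omega)
    have h2 := e1 (i + 1) (by omega)
    have h3 : t * ∑ j ∈ range b, d2 t (i + j) * q j = 0 := by
      have : ∑ j ∈ range b, d2 t (i + j) * q j =
          ∑ j ∈ range b, d1 t (i + 1 + j) * q j - ∑ j ∈ range b, d1 t (i + j) * q j := by
        rw [← sum_sub_distrib]
        apply sum_congr rfl
        intro j _
        rw [d2, show i + j + 1 = i + 1 + j by ring]
        ring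
      rw [this, mul_sub, h1, h2]
      ring
    rcases mul_eq_zero.1 h3 with h4 | h4
    · exact absurd h4 ht0
    · exact h4
  have hρ0 : ρ = 0 := sum_eq_zero fun j hj => hq0 j (mem_range.1 hj)
  have hπμ : π = μ := by
    have h1 := e1 0 (by omega)
    have h2 : ∑ j ∈ range b, d1 t (0 + j) * q j = 0 :=
      sum_eq_zero fun j hj => by rw [hq0 j (mem_range.1 hj), mul_zero]
    rw [h2, hρ0] at h1
    linear_combination h1
  have hsum : ∑ j ∈ range (2 * b + 1), r j = π + ρ := by
    rw [sum_split, hdiv1, hdiv2]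
  refine ⟨by rw [hsum, y_odd, hρ0, hπμ]; ring, ?_⟩
  intro hμ
  have e2 : ∀ i < b, t * ∑ j ∈ range (b + 1), d1 t (i + j) * p j = 0 := by
    intro i hi
    have h := hr (2 * i + 1) (by omega)
    rw [sum_split, hdiv1, hdiv2] at h
    have h1 : ∑ j ∈ range (b + 1), d1 t (2 * i + 1 + 2 * j) * r (2 * j) =
        t * ∑ j ∈ range (b + 1), d1 t (i + j) * p j - π := by
      rw [mul_sum, hπ, ← sum_sub_distrib]
      apply sum_congr rfl
      intro j _
      rw [show 2 * i + 1 + 2 * j = 2 * (i + j) + 1 by ring, d1_odd]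
      ring
    have h2 : ∑ j ∈ range b, d1 t (2 * i + 1 + (2 * j + 1)) * r (2 * j + 1) = ρ :=
      sum_congr rfl fun j _ => by
        rw [show 2 * i + 1 + (2 * j + 1) = 2 * (i + j + 1) by ring, d1_even, one_mul]
    rw [h1, h2, hρ0, hπμ, hμ] at h
    linear_combination h
  set Q : ℕ → ℂ := fun j => ∑ l ∈ range (j + 1), p l with hQ
  have hQb : Q b = 0 := by rw [hQ]; exact hπμ.trans hμ
  have hQ0 : ∀ j < b, Q j = 0 := by
    apply hF
    intro i hi
    have h1 := e2 i hi
    have h2 : ∑ j ∈ range (b + 1), d1 t (i + j) * p j = 0 := by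
      rcases mul_eq_zero.1 h1 with h4 | h4
      · exact absurd h4 ht0
      · exact h4
    rw [abel b (fun j => d1 t (i + j)) p] at h2
    have h3 : ∑ l ∈ range (b + 1), p l = 0 := hQb
    rw [h3, mul_zero, zero_sub, neg_eq_zero] at h2
    rw [← h2]
    apply sum_congr rfl
    intro j _
    rw [d2, add_assoc]
  have hQall : ∀ j < b + 1, Q j = 0 := by
    intro j hj
    rcases Nat.lt_or_ge j b with h | h
    · exact hQ0 j h
    · have : j = b := by omega
      rw [this]; exact hQb
  have hp0 : ∀ j < b + 1, p j = 0 := by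
    intro j hj
    rcases Nat.eq_zero_or_pos j with rfl | hj0
    · have := hQall 0 (by omega)
      simpa [hQ] using this
    · obtain ⟨k, rfl⟩ : ∃ k, j = k + 1 := ⟨j - 1, by omega⟩
      have h1 := hQall (k + 1) hj
      have h2 := hQall k (by omega)
      simp only [hQ] at h1 h2
      rw [sum_range_succ, h2, zero_add] at h1
      exact h1
  intro j hj
  rcases Nat.even_or_odd' j with ⟨k, rfl | rfl⟩
  · exact hp0 k (by omega)
  · exact hq0 k (by omega)

lemma F_step {N : ℕ} (hD : DD t ((N + 1) / 2)) (hF : FF t (N / 2)) : FF t N := by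
  intro r hr
  have ht0 := t_ne ht
  set a := (N + 1) / 2 with ha
  set b := N / 2 with hb
  have hab : b ≤ a := by omega
  set p : ℕ → ℂ := fun j => r (2 * j) with hp
  set q : ℕ → ℂ := fun j => r (2 * j + 1) with hq
  set π := ∑ j ∈ range a, p j with hπ
  have e1 : ∀ i < a, ∑ j ∈ range a, (t * d1 t (i + j) - 2) * p j +
      ∑ j ∈ range b, (2 - t * d1 t (i + j)) * q j = 0 := by
    intro i hi
    have h := hr (2 * i) (by omega)
    rw [sum_split, ← ha, ← hb] at h
    rw [← h]
    congr 1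
    · apply sum_congr rfl
      intro j _
      rw [← mul_add, d2_even]
    · apply sum_congr rfl
      intro j _
      rw [show 2 * i + (2 * j + 1) = 2 * (i + j) + 1 by ring, d2_odd]
  have e2 : ∀ i < b, ∑ j ∈ range a, (2 - t * d1 t (i + j)) * p j +
      ∑ j ∈ range b, (t * d1 t (i + j + 1) - 2) * q j = 0 := by
    intro i hi
    have h := hr (2 * i + 1) (by omega)
    rw [sum_split, ← ha, ← hb] at h
    rw [← h]
    congr 1
    · apply sum_congr rfl
      intro j _
      rw [show 2 * i + 1 + 2 * j = 2 * (i + j) + 1 by ring, d2_odd]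
    · apply sum_congr rfl
      intro j _
      rw [show 2 * i + 1 + (2 * j + 1) = 2 * (i + j + 1) by ring, d2_even]
  have hq0 : ∀ j < b, q j = 0 := by
    apply hF
    intro i hi
    have h1 := e1 i (by omega)
    have h2 := e2 i hi
    have h3 : t * ∑ j ∈ range b, d2 t (i + j) * q j = 0 := by
      have h4 : ∑ j ∈ range a, (t * d1 t (i + j) - 2) * p j +
          ∑ j ∈ range a, (2 - t * d1 t (i + j)) * p j = 0 := by
        rw [← sum_add_distrib]
        apply sum_eq_zero
        intro j _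
        ring
      have h5 : ∑ j ∈ range b, (2 - t * d1 t (i + j)) * q j +
          ∑ j ∈ range b, (t * d1 t (i + j + 1) - 2) * q j =
          t * ∑ j ∈ range b, d2 t (i + j) * q j := by
        rw [← sum_add_distrib, mul_sum]
        apply sum_congr rfl
        intro j _
        rw [d2]
        ring
      rw [← h5]
      linear_combination h1 + h2 - h4
    rcases mul_eq_zero.1 h3 with h4 | h4
    · exact absurd h4 ht0
    · exact h4
  have e3 : ∀ i < a, t * ∑ j ∈ range a, d1 t (i + j) * p j = 2 * π := by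
    intro i hi
    have h1 := e1 i hi
    have h2 : ∑ j ∈ range b, (2 - t * d1 t (i + j)) * q j = 0 :=
      sum_eq_zero fun j hj => by rw [hq0 j (mem_range.1 hj), mul_zero]
    rw [h2, add_zero] at h1
    have h3 : ∑ j ∈ range a, (t * d1 t (i + j) - 2) * p j =
        t * ∑ j ∈ range a, d1 t (i + j) * p j - 2 * π := by
      rw [mul_sum, hπ, mul_sum, ← sum_sub_distrib]
      apply sum_congr rfl
      intro j _
      ring
    rw [h3] at h1
    linear_combination h1
  obtain ⟨c1, c2⟩ := hD p (2 * π / t) (fun i hi => by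
    rw [eq_div_iff ht0, mul_comm]; exact e3 i hi)
  rw [← hπ] at c1
  have hπ0 : π = 0 := by
    have h1 : π * (t - 2 * y t a) = 0 := by
      have : π * t = 2 * π * y t a := by
        conv_lhs => rw [c1]
        field_simp
      linear_combination this
    rcases mul_eq_zero.1 h1 with h2 | h2
    · exact h2
    · exact absurd h2 (ty_ne ht a)
  have hp0 := c2 (by rw [hπ0]; simp)
  intro j hj
  rcases Nat.even_or_odd' j with ⟨k, rfl | rfl⟩
  · exact hp0 k (by omega)
  · exact hq0 k (by omega)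

lemma DF_all : ∀ N : ℕ, (1 ≤ N → DD t N) ∧ FF t N := by
  intro N
  induction N using Nat.strong_induction_on with
  | _ N ih =>
    rcases Nat.eq_zero_or_pos N with rfl | hN
    · exact ⟨fun h => by omega, fun r _ j hj => by omega⟩
    · have hD : DD t N := by
        rcases Nat.even_or_odd' N with ⟨b, hb | hb⟩
        · rw [hb]
          exact D_even ht (by omega) ((ih b (by omega)).1 (by omega))
        · rw [hb]
          exact D_odd ht (ih b (by omega)).2
      refine ⟨fun _ => hD, ?_⟩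
      apply F_step ht
      · rcases Nat.lt_or_ge ((N + 1) / 2) N with h | h
        · exact (ih _ h).1 (by omega)
        · have : (N + 1) / 2 = N := by omega
          rw [this]; exact hD
      · exact (ih (N / 2) (by omega)).2

/-- Claim for the matrix `[S(i+j)]`: the solutions of `M P = λ 1` -/
def CC (t : ℂ) (N : ℕ) (u : ℂ) : Prop := ∀ (r : ℕ → ℂ) (lam : ℂ),
  (∀ i < N, ∑ j ∈ range N, s t (i + j) * r j = lam) →
    lam = u * ∑ j ∈ range N, r j ∧ (∑ j ∈ range N, r j = 0 → ∀ j < N, r j = 0)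

lemma C_step {N : ℕ} {u : ℂ} (hN : 2 ≤ N) (hC : CC t ((N + 1) / 2) u) :
    CC t N (t * u - y t (N / 2) / (t - 2 * y t (N / 2))) := by
  intro r lam hr
  have ht0 := t_ne ht
  set a := (N + 1) / 2 with ha
  set b := N / 2 with hb
  have hab : b ≤ a := by omega
  set p : ℕ → ℂ := fun j => r (2 * j) with hp
  set q : ℕ → ℂ := fun j => r (2 * j + 1) with hq
  set π := ∑ j ∈ range a, p j with hπ
  set ρ := ∑ j ∈ range b, q j with hρ
  set P : ℕ → ℂ := fun j => p j + if j < b then q j else 0 with hP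
  have hext : ∀ f : ℕ → ℂ, ∑ j ∈ range a, f j * (if j < b then q j else 0) =
      ∑ j ∈ range b, f j * q j := by
    intro f
    rw [← sum_subset (s₁ := range b) (s₂ := range a)]
    · apply sum_congr rfl
      intro j hj
      rw [if_pos (mem_range.1 hj)]
    · intro j hj
      rw [mem_range] at hj ⊢
      omega
    · intro j _ hj
      rw [mem_range] at hj
      rw [if_neg hj, mul_zero]
  have hPsum : ∑ j ∈ range a, P j = π + ρ := by
    simp only [hP, sum_add_distrib]
    have := hext (fun _ => 1)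
    simp only [one_mul] at this
    rw [this]
  have hsum : ∑ j ∈ range N, r j = π + ρ := by rw [sum_split, ← ha, ← hb]
  have e1 : ∀ i < a, t * ∑ j ∈ range a, s t (i + j) * P j = lam - ρ := by
    intro i hi
    have h := hr (2 * i) (by omega)
    rw [sum_split, ← ha, ← hb] at h
    have h1 : ∑ j ∈ range a, s t (2 * i + 2 * j) * r (2 * j) =
        t * ∑ j ∈ range a, s t (i + j) * p j := by
      rw [mul_sum]
      apply sum_congr rfl
      intro j _
      rw [← mul_add, s_even]
      ring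
    have h2 : ∑ j ∈ range b, s t (2 * i + (2 * j + 1)) * r (2 * j + 1) =
        t * ∑ j ∈ range b, s t (i + j) * q j + ρ := by
      rw [mul_sum, hρ, ← sum_add_distrib]
      apply sum_congr rfl
      intro j _
      rw [show 2 * i + (2 * j + 1) = 2 * (i + j) + 1 by ring, s_odd]
      ring
    have h3 : ∑ j ∈ range a, s t (i + j) * P j =
        ∑ j ∈ range a, s t (i + j) * p j + ∑ j ∈ range b, s t (i + j) * q j := by
      rw [← hext (fun j => s t (i + j)), ← sum_add_distrib]
      apply sum_congr rfl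
      intro j _
      rw [hP]
      ring
    rw [h1, h2] at h
    rw [h3]
    linear_combination h
  have e2 : ∀ i < b, t * ∑ j ∈ range b, d1 t (i + j) * q j = ρ - π := by
    intro i hi
    have g1 := hr (2 * i) (by omega)
    have g2 := hr (2 * i + 1) (by omega)
    rw [sum_split, ← ha, ← hb] at g1 g2
    have h1 : ∑ j ∈ range a, s t (2 * i + 1 + 2 * j) * r (2 * j) =
        ∑ j ∈ range a, s t (2 * i + 2 * j) * r (2 * j) + π := by
      rw [hπ, ← sum_add_distrib]
      apply sum_congr rfl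
      intro j _
      rw [← mul_add, show 2 * i + 1 + 2 * j = 2 * (i + j) + 1 by ring, s_even, s_odd]
      ring
    have h2 : ∑ j ∈ range b, s t (2 * i + 1 + (2 * j + 1)) * r (2 * j + 1) =
        ∑ j ∈ range b, s t (2 * i + (2 * j + 1)) * r (2 * j + 1) +
          t * ∑ j ∈ range b, d1 t (i + j) * q j - ρ := by
      rw [mul_sum, hρ, ← sum_add_distrib, ← sum_sub_distrib]
      apply sum_congr rfl
      intro j _
      rw [show 2 * i + 1 + (2 * j + 1) = 2 * (i + j + 1) by ring,
        show 2 * i + (2 * j + 1) = 2 * (i + j) + 1 by ring, s_even, s_odd, d1]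
      ring
    rw [h1, h2] at g2
    linear_combination g2 - g1
  obtain ⟨c1, c2⟩ := (DF_all ht b).1 (by omega) q ((ρ - π) / t) (fun i hi => by
    rw [eq_div_iff ht0, mul_comm]; exact e2 i hi)
  obtain ⟨c3, c4⟩ := hC P ((lam - ρ) / t) (fun i hi => by
    rw [eq_div_iff ht0, mul_comm]; exact e1 i hi)
  rw [← hρ] at c1
  rw [hPsum] at c3 c4
  have c1' : ρ * t = (ρ - π) * y t b := by
    conv_lhs => rw [c1]
    field_simp
  have hne := ty_ne ht b
  have hρe : ρ = -((π + ρ) * (y t b / (t - 2 * y t b))) := by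
    have h1 : ρ * (t - 2 * y t b) = -((π + ρ) * y t b) := by linear_combination c1'
    rw [← mul_div_assoc, ← neg_div, eq_div_iff hne]
    exact h1
  have c3' : lam - ρ = t * (u * (π + ρ)) := by
    rw [← c3]; field_simp
  rw [hsum]
  refine ⟨?_, ?_⟩
  · linear_combination c3' + hρe
  · intro h0
    have hρ0 : ρ = 0 := by rw [hρe, h0]; simp
    have hπ0 : π = 0 := by linear_combination h0 - hρ0
    have hq0 := c2 (by rw [hρ0, hπ0]; simp)
    have hP0 := c4 h0
    intro j hj
    rcases Nat.even_or_odd' j with ⟨k, rfl | rfl⟩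
    · have h1 := hP0 k (by omega)
      simp only [hP] at h1
      by_cases hk : k < b
      · rw [if_pos hk, hq0 k hk, add_zero] at h1
        exact h1
      · rw [if_neg hk, add_zero] at h1
        exact h1
    · exact hq0 k (by omega)

end

lemma C_one (t : ℂ) : CC t 1 0 := by
  intro r lam hr
  have h := hr 0 (by norm_num)
  simp only [range_one, sum_singleton, add_zero, s_zero, zero_mul] at h
  refine ⟨by rw [← h]; ring, ?_⟩
  intro h0 j hj
  have : j = 0 := by omega
  subst this
  simpa using h0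

lemma C_all {t : ℂ} (ht : 4 < ‖t‖) : ∀ N, 2 ≤ N → ∃ u : ℂ, CC t N u ∧ 1 / (‖t‖ + 2) ≤ ‖u‖ := by
  have ht2 : 2 < ‖t‖ := by linarith
  have hg : ∀ b, ‖y t b / (t - 2 * y t b)‖ ≤ 1 / (‖t‖ - 2) := by
    intro b
    rw [norm_div]
    have h1 := norm_y ht2 b
    have h2 : ‖t‖ - 2 ≤ ‖t - 2 * y t b‖ := by
      have h3 := norm_sub_norm_le t (2 * y t b)
      rw [norm_mul, Complex.norm_ofNat] at h3
      linarith
    exact div_le_div₀ (by norm_num) h1 (by linarith) h2
  intro N
  induction N using Nat.strong_induction_on with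
  | _ N ih =>
    intro hN
    rcases Nat.lt_or_ge N 3 with h | h
    · obtain rfl : N = 2 := by omega
      have h1 := C_step ht2 (N := 2) (u := 0) le_rfl (by simpa using C_one t)
      refine ⟨_, h1, ?_⟩
      have h2 : y t (2 / 2) = 1 := by simpa using y_odd t 0
      rw [h2, mul_zero, zero_sub, norm_neg, norm_div, norm_one, mul_one]
      have hne : t - 2 ≠ 0 := by
        have := ty_ne ht2 1
        have h3 : y t 1 = 1 := by simpa using y_odd t 0
        rwa [h3, mul_one] at this
      apply one_div_le_one_div_of_le (norm_pos_iff.2 hne)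
      have h4 := norm_sub_le t 2
      rw [Complex.norm_ofNat] at h4
      exact h4
    · obtain ⟨u, hu, hu2⟩ := ih ((N + 1) / 2) (by omega) (by omega)
      refine ⟨_, C_step ht2 (by omega) hu, ?_⟩
      have h1 := norm_sub_norm_le (t * u) (y t (N / 2) / (t - 2 * y t (N / 2)))
      rw [norm_mul] at h1
      have h2 := hg (N / 2)
      have h3 : ‖t‖ * (1 / (‖t‖ + 2)) ≤ ‖t‖ * ‖u‖ :=
        mul_le_mul_of_nonneg_left hu2 (norm_nonneg _)
      have h4 : 1 / (‖t‖ + 2) ≤ ‖t‖ * (1 / (‖t‖ + 2)) - 1 / (‖t‖ - 2) := by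
        rw [mul_one_div, div_sub_div _ _ (by linarith) (by linarith), div_le_div_iff₀
          (by linarith) (by nlinarith)]
        nlinarith [mul_pos (show 0 < ‖t‖ - 4 by linarith) (show 0 < ‖t‖ + 2 by linarith),
          mul_pos (mul_pos (show 0 < ‖t‖ - 4 by linarith) (show 0 < ‖t‖ + 2 by linarith))
            (show 0 < ‖t‖ by linarith)]
      linarith

/-- Every complex root `t₀` of `𝓗(n,t)`, `n ≥ 2`, satisfies `|t₀| ≤ 4`. -/
theorem root_bound (n : ℕ) (hn : 2 ≤ n) (t₀ : ℂ) (h0 : Polynomial.aeval t₀ (H n) = 0) :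
    ‖t₀‖ ≤ 4 := by
  by_contra hcon
  push Not at hcon
  obtain ⟨u, hu, hu2⟩ := C_all hcon n hn
  have hu0 : u ≠ 0 := by
    rintro rfl
    rw [norm_zero] at hu2
    have : 0 < 1 / (‖t₀‖ + 2) := by positivity
    linarith
  have hdet : (Matrix.of fun i j : Fin n => s t₀ ((i : ℕ) + (j : ℕ))).det = 0 := by
    rw [← h0, H, AlgHom.map_det]
    congr 1
  obtain ⟨v, hv, hMv⟩ := Matrix.exists_mulVec_eq_zero_iff.2 hdet
  set r : ℕ → ℂ := fun j => if h : j < n then v ⟨j, h⟩ else 0 with hr
  have hsys : ∀ i < n, ∑ j ∈ range n, s t₀ (i + j) * r j = 0 := by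
    intro i hi
    have h1 := congrFun hMv ⟨i, hi⟩
    rw [Matrix.mulVec, dotProduct] at h1
    simp only [Matrix.of_apply, Pi.zero_apply] at h1
    rw [← h1, Finset.sum_range]
    apply sum_congr rfl
    intro j _
    simp [hr]
  obtain ⟨c1, c2⟩ := hu r 0 hsys
  have hs0 : ∑ j ∈ range n, r j = 0 := by
    rcases mul_eq_zero.1 c1.symm with h | h
    · exact absurd h hu0
    · exact h
  apply hv
  funext j
  have := c2 hs0 j j.2
  simpa [hr] using this

/-- There is a uniform bound for all roots of all `𝓗(n,t)`, `n ≥ 2`; one may take `M = 4`. -/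
theorem result : ∃ M : ℝ, M = 4 ∧ ∀ n : ℕ, 2 ≤ n → ∀ t₀ : ℂ,
    Polynomial.aeval t₀ (H n) = 0 → ‖t₀‖ ≤ M :=
  ⟨4, rfl, root_bound⟩

end Pool.Agent.Results.MP_9fc12a_nt.RootBound
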